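import Mathlib

namespace Pool.Agent.Results.MP_abe753_lc.PlusNotLocal

open FirstOrder

/-- A vertex-coloured graph on the vertex set `V` with the colour predicates `colour i`, `i : Fin c`. -/
structure ColouredGraph (c : ℕ) (V : Type) where
  graph : SimpleGraph V
  colour : Fin c → Set V

/-- The relation symbols: adjacency (binary), the colours (unary), and `+` (ternary). -/
inductive Symb (c : ℕ) : ℕ → Type
  | adj : Symb c 2
  | colour (i : Fin c) : Symb c 1
  | plus : Symb c 3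

/-- The graph vocabulary with `c` colours, expanded by the ternary symbol `+`. -/
abbrev vocab (c : ℕ) : Language := ⟨fun _ => Empty, Symb c⟩

/-- `f` is a numbering of `V`: a bijection from `V` onto `{1, ..., |V|}`. -/
def IsNumbering {V : Type} (f : V → ℕ) : Prop :=
  Set.BijOn f Set.univ (Set.Icc 1 (Nat.card V))

/-- The expansion of a coloured graph by `+(u,v,w) :⇔ f u + f v = f w`. -/
@[reducible] def expansion {c : ℕ} {V : Type} (G : ColouredGraph c V) (f : V → ℕ) :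
    (vocab c).Structure V where
  funMap := fun e => e.elim
  RelMap := fun {_} R =>
    match R with
    | .adj => fun x => G.graph.Adj (x 0) (x 1)
    | .colour i => fun x => x 0 ∈ G.colour i
    | .plus => fun x => f (x 0) + f (x 1) = f (x 2)

/-- `(G, f) ⊨ φ(a)`. -/
def Sat {c : ℕ} {V α : Type} (G : ColouredGraph c V) (f : V → ℕ) (φ : (vocab c).Formula α)
    (a : α → V) : Prop :=
  @Language.Formula.Realize (vocab c) V (expansion G f) α φ a

/-- `φ` is `+`-invariant: its truth on finite coloured graphs does not depend on the numbering. -/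
def PlusInvariant {c k : ℕ} (φ : (vocab c).Formula (Fin k)) : Prop :=
  ∀ (V : Type) [Finite V] (G : ColouredGraph c V) (f₁ f₂ : V → ℕ),
    IsNumbering f₁ → IsNumbering f₂ → ∀ a : Fin k → V, Sat G f₁ φ a ↔ Sat G f₂ φ a

/-- The `k`-ary query on unnumbered graphs defined by a `+`-invariant formula. -/
def query {c k : ℕ} (φ : (vocab c).Formula (Fin k)) {V : Type} (G : ColouredGraph c V) :
    Set (Fin k → V) :=
  {a | ∃ f : V → ℕ, IsNumbering f ∧ Sat G f φ a}

/-- The set of vertices at distance at most `r` from some entry of the tuple `a`. -/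
def ball {c k : ℕ} {V : Type} (G : ColouredGraph c V) (r : ℕ) (a : Fin k → V) : Set V :=
  {v | ∃ i, ∃ w : G.graph.Walk (a i) v, w.length ≤ r}

/-- The `r`-neighbourhoods of `a` and `b` are isomorphic by a map sending `a` to `b`. -/
def NbhdIso {c k : ℕ} {V : Type} (G : ColouredGraph c V) (r : ℕ) (a b : Fin k → V) : Prop :=
  ∃ e : ball G r a ≃ ball G r b,
    (∀ u v : ball G r a, G.graph.Adj u v ↔ G.graph.Adj (e u) (e v)) ∧
    (∀ (i : Fin c) (u : ball G r a), (u : V) ∈ G.colour i ↔ (e u : V) ∈ G.colour i) ∧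
    (∀ (i : Fin k) (h : a i ∈ ball G r a), (e ⟨a i, h⟩ : V) = b i)

/-- The query of `φ` is Gaifman-local: one radius works for all finite coloured graphs. -/
def GaifmanLocal {c k : ℕ} (φ : (vocab c).Formula (Fin k)) : Prop :=
  ∃ r : ℕ, ∀ (V : Type) [Finite V] (G : ColouredGraph c V) (a b : Fin k → V),
    NbhdIso G r a b → (a ∈ query φ G ↔ b ∈ query φ G)

/-! ### Formulas with named variables -/

section Formulas

variable {c : ℕ}

abbrev Fm (c : ℕ) := (vocab c).Formula ℕ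

def adjF (x y : ℕ) : Fm c :=
  Language.Relations.formula (L := vocab c) (Symb.adj : (vocab c).Relations 2)
    ![Language.Term.var x, Language.Term.var y]

def colF (i : Fin c) (x : ℕ) : Fm c :=
  Language.Relations.formula (L := vocab c) (Symb.colour i : (vocab c).Relations 1)
    ![Language.Term.var x]

def plusF (x y z : ℕ) : Fm c :=
  Language.Relations.formula (L := vocab c) (Symb.plus : (vocab c).Relations 3)
    ![Language.Term.var x, Language.Term.var y, Language.Term.var z]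

def eqF (x y : ℕ) : Fm c :=
  Language.Term.equal (Language.Term.var x) (Language.Term.var y)

def notF (φ : Fm c) : Fm c := φ.not
def andF (φ ψ : Fm c) : Fm c := φ ⊓ ψ
def impF (φ ψ : Fm c) : Fm c := φ.imp ψ
def orF (φ ψ : Fm c) : Fm c := φ ⊔ ψ
def iffF (φ ψ : Fm c) : Fm c := φ.iff ψ

def exF (x : ℕ) (φ : Fm c) : Fm c :=
  (Language.BoundedFormula.relabel (n := 1) (k := 0)
    (fun y : ℕ => if y = x then (Sum.inr 0 : ℕ ⊕ Fin 1) else Sum.inl y) φ).ex

def allF (x : ℕ) (φ : Fm c) : Fm c := notF (exF x (notF φ))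

variable {V : Type} {G : ColouredGraph c V} {f : V → ℕ} {v : ℕ → V}

theorem sat_adj {x y : ℕ} : Sat G f (adjF x y) v ↔ G.graph.Adj (v x) (v y) := by
  unfold Sat adjF
  let _ := expansion G f
  exact Language.Formula.realize_rel

theorem sat_col {i : Fin c} {x : ℕ} : Sat G f (colF i x) v ↔ v x ∈ G.colour i := by
  unfold Sat colF
  let _ := expansion G f
  exact Language.Formula.realize_rel

theorem sat_plus {x y z : ℕ} : Sat G f (plusF x y z) v ↔ f (v x) + f (v y) = f (v z) := by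
  unfold Sat plusF
  let _ := expansion G f
  exact Language.Formula.realize_rel

theorem sat_eq {x y : ℕ} : Sat G f (eqF x y) v ↔ v x = v y := by
  unfold Sat eqF
  let _ := expansion G f
  rw [Language.Formula.realize_equal]
  rfl

theorem sat_not {φ : Fm c} : Sat G f (notF φ) v ↔ ¬ Sat G f φ v := Iff.rfl

theorem sat_and {φ ψ : Fm c} : Sat G f (andF φ ψ) v ↔ (Sat G f φ v ∧ Sat G f ψ v) := by
  unfold Sat andF
  let _ := expansion G f
  exact Language.Formula.realize_inf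

theorem sat_or {φ ψ : Fm c} : Sat G f (orF φ ψ) v ↔ (Sat G f φ v ∨ Sat G f ψ v) := by
  unfold Sat orF
  let _ := expansion G f
  exact Language.Formula.realize_sup

theorem sat_imp {φ ψ : Fm c} : Sat G f (impF φ ψ) v ↔ (Sat G f φ v → Sat G f ψ v) := by
  unfold Sat impF
  let _ := expansion G f
  exact Language.Formula.realize_imp

theorem sat_iff {φ ψ : Fm c} : Sat G f (iffF φ ψ) v ↔ (Sat G f φ v ↔ Sat G f ψ v) := by
  unfold Sat iffF
  let _ := expansion G f
  exact Language.Formula.realize_iff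

theorem sat_ex {x : ℕ} {φ : Fm c} :
    Sat G f (exF x φ) v ↔ ∃ a : V, Sat G f φ (Function.update v x a) := by
  unfold Sat exF Language.Formula.Realize
  let _ := expansion G f
  rw [Language.BoundedFormula.realize_ex]
  refine exists_congr fun a => ?_
  rw [Language.BoundedFormula.realize_relabel]
  refine iff_of_eq ?_
  congr 1
  · funext y
    by_cases h : y = x
    · subst h
      simp [Fin.snoc]
    · simp [h]
  · exact Subsingleton.elim _ _

theorem sat_all {x : ℕ} {φ : Fm c} :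
    Sat G f (allF x φ) v ↔ ∀ a : V, Sat G f φ (Function.update v x a) := by
  unfold allF
  rw [sat_not, sat_ex]
  simp only [sat_not, not_exists, not_not]

end Formulas

/-! ### The axioms of the coding graphs

Colours: `0` = `S` (the small part), `1` = `A`, `2` = `B` (two matched copies of an index set),
`3` = `D` (the pairs `A × B`), `4` = `P` (all subsets of `D`), `5` = red. -/

section Semantics

variable {V : Type}

/-- The pair `(u, v)` belongs to the relation coded by `X`. -/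
def InRel (G : ColouredGraph 6 V) (X u v : V) : Prop :=
  ∃ d, d ∈ G.colour 3 ∧ G.graph.Adj d u ∧ G.graph.Adj d v ∧ G.graph.Adj d X

def inRelF (X u v : ℕ) : Fm 6 :=
  exF 100 (andF (colF 3 100) (andF (adjF 100 u) (andF (adjF 100 v) (adjF 100 X))))

theorem sat_inRel {G : ColouredGraph 6 V} {f : V → ℕ} {e : ℕ → V} {X u v : ℕ}
    (hX : X ≠ 100) (hu : u ≠ 100) (hv : v ≠ 100) :
    Sat G f (inRelF X u v) e ↔ InRel G (e X) (e u) (e v) := by
  simp only [inRelF, InRel, sat_ex, sat_and, sat_col, sat_adj, Function.update_self,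
    Function.update_of_ne hX, Function.update_of_ne hu, Function.update_of_ne hv]

structure Ax (G : ColouredGraph 6 V) : Prop where
  cover : ∀ x, x ∈ G.colour 0 ∨ x ∈ G.colour 1 ∨ x ∈ G.colour 2 ∨ x ∈ G.colour 3 ∨ x ∈ G.colour 4
  disj : ∀ x, x ∈ G.colour 0 → ¬ x ∈ G.colour 4
  pair : ∀ u, u ∈ G.colour 1 → ∀ v, v ∈ G.colour 2 →
    ∃ d, d ∈ G.colour 3 ∧ G.graph.Adj d u ∧ G.graph.Adj d v
  fst : ∀ d, d ∈ G.colour 3 → ∃ u, u ∈ G.colour 1 ∧ G.graph.Adj d u
  snd : ∀ d, d ∈ G.colour 3 → ∃ v, v ∈ G.colour 2 ∧ G.graph.Adj d v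
  fstu : ∀ d, d ∈ G.colour 3 → ∀ u, u ∈ G.colour 1 → ∀ v, v ∈ G.colour 1 →
    G.graph.Adj d u → G.graph.Adj d v → u = v
  sndu : ∀ d, d ∈ G.colour 3 → ∀ u, u ∈ G.colour 2 → ∀ v, v ∈ G.colour 2 →
    G.graph.Adj d u → G.graph.Adj d v → u = v
  pairu : ∀ d, d ∈ G.colour 3 → ∀ e, e ∈ G.colour 3 → ∀ u, u ∈ G.colour 1 → ∀ v, v ∈ G.colour 2 →
    G.graph.Adj d u → G.graph.Adj d v → G.graph.Adj e u → G.graph.Adj e v → d = e
  empt : ∃ X, X ∈ G.colour 4 ∧ ∀ d, d ∈ G.colour 3 → ¬ G.graph.Adj d X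
  succ : ∀ X, X ∈ G.colour 4 → ∀ d, d ∈ G.colour 3 → ∃ Y, Y ∈ G.colour 4 ∧
    ∀ e, e ∈ G.colour 3 → (G.graph.Adj e Y ↔ (G.graph.Adj e X ∨ e = d))
  ext : ∀ X, X ∈ G.colour 4 → ∀ Y, Y ∈ G.colour 4 →
    (∀ d, d ∈ G.colour 3 → (G.graph.Adj d X ↔ G.graph.Adj d Y)) → X = Y
  match1 : ∀ u, u ∈ G.colour 1 → ∃ v, v ∈ G.colour 2 ∧ G.graph.Adj u v
  match2 : ∀ v, v ∈ G.colour 2 → ∃ u, u ∈ G.colour 1 ∧ G.graph.Adj u v
  match1u : ∀ u, u ∈ G.colour 1 → ∀ v, v ∈ G.colour 2 → ∀ w, w ∈ G.colour 2 →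
    G.graph.Adj u v → G.graph.Adj u w → v = w
  match2u : ∀ v, v ∈ G.colour 2 → ∀ u, u ∈ G.colour 1 → ∀ w, w ∈ G.colour 1 →
    G.graph.Adj u v → G.graph.Adj w v → u = w

/-- bounded quantifiers -/
def allC (x : ℕ) (i : Fin 6) (φ : Fm 6) : Fm 6 := allF x (impF (colF i x) φ)
def exC (x : ℕ) (i : Fin 6) (φ : Fm 6) : Fm 6 := exF x (andF (colF i x) φ)

theorem sat_allC {G : ColouredGraph 6 V} {f : V → ℕ} {e : ℕ → V} {x : ℕ} {i : Fin 6} {φ : Fm 6} :
    Sat G f (allC x i φ) e ↔ ∀ a, a ∈ G.colour i → Sat G f φ (Function.update e x a) := by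
  simp only [allC, sat_all, sat_imp, sat_col, Function.update_self]

theorem sat_exC {G : ColouredGraph 6 V} {f : V → ℕ} {e : ℕ → V} {x : ℕ} {i : Fin 6} {φ : Fm 6} :
    Sat G f (exC x i φ) e ↔ ∃ a, a ∈ G.colour i ∧ Sat G f φ (Function.update e x a) := by
  simp only [exC, sat_ex, sat_and, sat_col, Function.update_self]

def axList : List (Fm 6) :=
  [ allF 10 (orF (colF 0 10) (orF (colF 1 10) (orF (colF 2 10) (orF (colF 3 10) (colF 4 10))))),
    allC 10 0 (notF (colF 4 10)),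
    allC 10 1 (allC 11 2 (exC 12 3 (andF (adjF 12 10) (adjF 12 11)))),
    allC 10 3 (exC 11 1 (adjF 10 11)),
    allC 10 3 (exC 11 2 (adjF 10 11)),
    allC 10 3 (allC 11 1 (allC 12 1 (impF (adjF 10 11) (impF (adjF 10 12) (eqF 11 12))))),
    allC 10 3 (allC 11 2 (allC 12 2 (impF (adjF 10 11) (impF (adjF 10 12) (eqF 11 12))))),
    allC 10 3 (allC 11 3 (allC 12 1 (allC 13 2 (impF (adjF 10 12) (impF (adjF 10 13)
      (impF (adjF 11 12) (impF (adjF 11 13) (eqF 10 11)))))))),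
    exC 10 4 (allC 11 3 (notF (adjF 11 10))),
    allC 10 4 (allC 11 3 (exC 12 4 (allC 13 3 (iffF (adjF 13 12)
      (orF (adjF 13 10) (eqF 13 11)))))),
    allC 10 4 (allC 11 4 (impF (allC 12 3 (iffF (adjF 12 10) (adjF 12 11))) (eqF 10 11))),
    allC 10 1 (exC 11 2 (adjF 10 11)),
    allC 10 2 (exC 11 1 (adjF 11 10)),
    allC 10 1 (allC 11 2 (allC 12 2 (impF (adjF 10 11) (impF (adjF 10 12) (eqF 11 12))))),
    allC 10 2 (allC 11 1 (allC 12 1 (impF (adjF 11 10) (impF (adjF 12 10) (eqF 11 12))))) ]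

def listF : List (Fm 6) → Fm 6
  | [] => allF 0 (eqF 0 0)
  | φ :: l => andF φ (listF l)

theorem sat_listF_nil {G : ColouredGraph 6 V} {f : V → ℕ} {e : ℕ → V} :
    Sat G f (listF []) e ↔ True := by
  simp [listF, sat_all, sat_eq]

theorem sat_listF_cons {G : ColouredGraph 6 V} {f : V → ℕ} {e : ℕ → V} {φ : Fm 6}
    {l : List (Fm 6)} : Sat G f (listF (φ :: l)) e ↔ (Sat G f φ e ∧ Sat G f (listF l) e) := by
  simp only [listF, sat_and]

theorem sat_ax {G : ColouredGraph 6 V} {f : V → ℕ} {e : ℕ → V} :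
    Sat G f (listF axList) e ↔ Ax G := by
  simp only [axList, sat_listF_nil, sat_listF_cons, sat_all, sat_and, sat_or, sat_imp, sat_iff,
    sat_not, sat_allC, sat_exC, sat_adj, sat_col, sat_eq, Function.update_apply, Nat.reduceEqDiff,
    reduceIte]
  constructor
  · rintro ⟨h1, h2, h3, h4, h5, h6, h7, h8, h9, h10, h11, h12, h13, h14, h15, -⟩
    exact ⟨h1, h2, h3, h4, h5, h6, h7, h8, h9, h10, h11, h12, h13, h14, h15⟩
  · rintro ⟨h1, h2, h3, h4, h5, h6, h7, h8, h9, h10, h11, h12, h13, h14, h15⟩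
    exact ⟨h1, h2, h3, h4, h5, h6, h7, h8, h9, h10, h11, h12, h13, h14, h15, trivial⟩

/-- `c` describes the trace of `t` on the coded separating set. -/
def Hash (G : ColouredGraph 6 V) (M Y Z t c : V) : Prop :=
  ∀ u, u ∈ G.colour 1 → ∀ v, v ∈ G.colour 2 → ∀ b, b ∈ G.colour 1 → ∀ b', b' ∈ G.colour 2 →
    InRel G Y u b' → InRel G Z b v → G.graph.Adj b b' → (InRel G t u v ↔ InRel G M c b')

def hashF (t c : ℕ) : Fm 6 :=
  allC 20 1 (allC 21 2 (allC 22 1 (allC 23 2 (impF (inRelF 4 20 23) (impF (inRelF 5 22 21)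
    (impF (adjF 22 23) (iffF (inRelF t 20 21) (inRelF 3 c 23))))))))

theorem sat_hash {G : ColouredGraph 6 V} {f : V → ℕ} {e : ℕ → V} {c : ℕ}
    (hc : c < 20) :
    Sat G f (hashF 24 c) e ↔ Hash G (e 3) (e 4) (e 5) (e 24) (e c) := by
  have h1 : c ≠ 20 := by omega
  have h2 : c ≠ 21 := by omega
  have h3 : c ≠ 22 := by omega
  have h4 : c ≠ 23 := by omega
  have h5 : c ≠ 100 := by omega
  have e1 : Sat G f (inRelF 4 20 23) = fun e : ℕ → V => InRel G (e 4) (e 20) (e 23) := by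
    funext e; exact propext (sat_inRel (by decide) (by decide) (by decide))
  have e2 : Sat G f (inRelF 5 22 21) = fun e : ℕ → V => InRel G (e 5) (e 22) (e 21) := by
    funext e; exact propext (sat_inRel (by decide) (by decide) (by decide))
  have e3 : Sat G f (inRelF 24 20 21) = fun e : ℕ → V => InRel G (e 24) (e 20) (e 21) := by
    funext e; exact propext (sat_inRel (by decide) (by decide) (by decide))
  have e4 : Sat G f (inRelF 3 c 23) = fun e : ℕ → V => InRel G (e 3) (e c) (e 23) := by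
    funext e; exact propext (sat_inRel (by decide) h5 (by decide))
  simp only [hashF, Hash, sat_allC, sat_imp, sat_iff, sat_adj, e1, e2, e3, e4,
    Function.update_apply, Nat.reduceEqDiff, reduceIte, h1, h2, h3, h4]

/-- The translation `s ↦ t` given by the parameters `x, y`, followed by the hash. -/
def Link (G : ColouredGraph 6 V) (f : V → ℕ) (x y M Y Z s c : V) : Prop :=
  ∃ t, t ∈ G.colour 4 ∧ ((f s + f x = f t ∨ f t + f y = f s) ∧ Hash G M Y Z t c)

def linkF (s c : ℕ) : Fm 6 :=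
  exC 24 4 (andF (orF (plusF s 1 24) (plusF 24 2 s)) (hashF 24 c))

theorem sat_link {G : ColouredGraph 6 V} {f : V → ℕ} {e : ℕ → V} {s c : ℕ}
    (hs : s < 20) (hc : c < 20) :
    Sat G f (linkF s c) e ↔ Link G f (e 1) (e 2) (e 3) (e 4) (e 5) (e s) (e c) := by
  have h1 : s ≠ 24 := by omega
  have h2 : c ≠ 24 := by omega
  have e1 : Sat G f (hashF 24 c) =
      fun e : ℕ → V => Hash G (e 3) (e 4) (e 5) (e 24) (e c) := by
    funext e; exact propext (sat_hash hc)
  simp only [linkF, Link, sat_exC, sat_and, sat_or, sat_plus, e1,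
    Function.update_apply, Nat.reduceEqDiff, reduceIte, h1, h2]

def Good (G : ColouredGraph 6 V) (f : V → ℕ) (x y M Y Z : V) : Prop :=
  (∀ s, s ∈ G.colour 0 → ∃ c, c ∈ G.colour 1 ∧ Link G f x y M Y Z s c) ∧
  (∀ c, c ∈ G.colour 1 → ∀ s, s ∈ G.colour 0 → ∀ s', s' ∈ G.colour 0 →
    Link G f x y M Y Z s c → Link G f x y M Y Z s' c → s = s')

def goodF : Fm 6 :=
  andF (allC 10 0 (exC 11 1 (linkF 10 11)))
    (allC 11 1 (allC 10 0 (allC 12 0 (impF (linkF 10 11) (impF (linkF 12 11) (eqF 10 12))))))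

theorem sat_good {G : ColouredGraph 6 V} {f : V → ℕ} {e : ℕ → V} :
    Sat G f goodF e ↔ Good G f (e 1) (e 2) (e 3) (e 4) (e 5) := by
  have e1 : Sat G f (linkF 10 11) =
      fun e : ℕ → V => Link G f (e 1) (e 2) (e 3) (e 4) (e 5) (e 10) (e 11) := by
    funext e; exact propext (sat_link (by decide) (by decide))
  have e2 : Sat G f (linkF 12 11) =
      fun e : ℕ → V => Link G f (e 1) (e 2) (e 3) (e 4) (e 5) (e 12) (e 11) := by
    funext e; exact propext (sat_link (by decide) (by decide))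
  simp only [goodF, Good, sat_allC, sat_exC, sat_and, sat_imp, sat_eq, e1, e2,
    Function.update_apply, Nat.reduceEqDiff, reduceIte]

/-- `s` belongs to the subset of `S` coded by `Q`. -/
def InU (G : ColouredGraph 6 V) (f : V → ℕ) (x y M Y Z Q s : V) : Prop :=
  ∃ c, c ∈ G.colour 1 ∧ (Link G f x y M Y Z s c ∧ ∃ v, v ∈ G.colour 2 ∧ InRel G Q c v)

def inUF (s : ℕ) : Fm 6 :=
  exC 14 1 (andF (linkF s 14) (exC 15 2 (inRelF 6 14 15)))

theorem sat_inU {G : ColouredGraph 6 V} {f : V → ℕ} {e : ℕ → V} {s : ℕ} (hs : s < 14) :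
    Sat G f (inUF s) e ↔ InU G f (e 1) (e 2) (e 3) (e 4) (e 5) (e 6) (e s) := by
  have h1 : s ≠ 14 := by omega
  have e1 : Sat G f (linkF s 14) =
      fun e : ℕ → V => Link G f (e 1) (e 2) (e 3) (e 4) (e 5) (e s) (e 14) := by
    funext e; exact propext (sat_link (by omega) (by decide))
  have e2 : Sat G f (inRelF 6 14 15) = fun e : ℕ → V => InRel G (e 6) (e 14) (e 15) := by
    funext e; exact propext (sat_inRel (by decide) (by decide) (by decide))
  simp only [inUF, InU, sat_exC, sat_and, e1, e2,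
    Function.update_apply, Nat.reduceEqDiff, reduceIte, h1]

/-- What the formula says. -/
def Main (G : ColouredGraph 6 V) (f : V → ℕ) (a : V) : Prop :=
  Ax G ∧ a ∈ G.colour 0 ∧ ∃ x y M, M ∈ G.colour 4 ∧ ∃ Y, Y ∈ G.colour 4 ∧ ∃ Z, Z ∈ G.colour 4 ∧
    Good G f x y M Y Z ∧
    ∀ Q, Q ∈ G.colour 4 → InU G f x y M Y Z Q a →
      (∀ s, s ∈ G.colour 0 → ∀ s', s' ∈ G.colour 0 → G.graph.Adj s s' →
        InU G f x y M Y Z Q s → InU G f x y M Y Z Q s') →
      ∃ s, s ∈ G.colour 0 ∧ (s ∈ G.colour 5 ∧ InU G f x y M Y Z Q s)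

def mainF : Fm 6 :=
  andF (listF axList) (andF (colF 0 0) (exF 1 (exF 2 (exC 3 4 (exC 4 4 (exC 5 4 (andF goodF
    (allC 6 4 (impF (inUF 0) (impF
      (allC 10 0 (allC 11 0 (impF (adjF 10 11) (impF (inUF 10) (inUF 11)))))
      (exC 10 0 (andF (colF 5 10) (inUF 10)))))))))))))

theorem sat_main {G : ColouredGraph 6 V} {f : V → ℕ} {e : ℕ → V} :
    Sat G f mainF e ↔ Main G f (e 0) := by
  have e1 : Sat G f (inUF 0) =
      fun e : ℕ → V => InU G f (e 1) (e 2) (e 3) (e 4) (e 5) (e 6) (e 0) := by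
    funext e; exact propext (sat_inU (by decide))
  have e2 : Sat G f (inUF 10) =
      fun e : ℕ → V => InU G f (e 1) (e 2) (e 3) (e 4) (e 5) (e 6) (e 10) := by
    funext e; exact propext (sat_inU (by decide))
  have e3 : Sat G f (inUF 11) =
      fun e : ℕ → V => InU G f (e 1) (e 2) (e 3) (e 4) (e 5) (e 6) (e 11) := by
    funext e; exact propext (sat_inU (by decide))
  have e4 : Sat G f goodF =
      fun e : ℕ → V => Good G f (e 1) (e 2) (e 3) (e 4) (e 5) := by
    funext e; exact propext sat_good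
  simp only [mainF, Main, sat_ax, sat_ex, sat_allC, sat_exC, sat_and, sat_imp, sat_adj, sat_col,
    e1, e2, e3, e4, Function.update_apply, Nat.reduceEqDiff, reduceIte, OfNat.zero_ne_ofNat,
    zero_ne_one, OfNat.ofNat_ne_one, OfNat.one_ne_ofNat]

/-! ### Combinatorics of the coding graphs -/

theorem comprehension {G : ColouredGraph 6 V} (h : Ax G) (Q : Set V) (hQ : Q.Finite) :
    ∃ X, X ∈ G.colour 4 ∧ ∀ d, d ∈ G.colour 3 → (G.graph.Adj d X ↔ d ∈ Q) := by
  induction Q, hQ using Set.Finite.induction_on with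
  | empty =>
    obtain ⟨X, hX, hX'⟩ := h.empt
    exact ⟨X, hX, fun d hd => ⟨fun h => (hX' d hd h).elim, fun h => h.elim⟩⟩
  | @insert q Q _ _ ih =>
    obtain ⟨X, hX, hX'⟩ := ih
    by_cases hq : q ∈ G.colour 3
    · obtain ⟨Y, hY, hY'⟩ := h.succ X hX q hq
      refine ⟨Y, hY, fun d hd => ?_⟩
      rw [hY' d hd, hX' d hd, Set.mem_insert_iff, or_comm]
    · refine ⟨X, hX, fun d hd => ?_⟩
      rw [hX' d hd, Set.mem_insert_iff]
      constructor
      · exact Or.inr
      · rintro (rfl | h)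
        · exact (hq hd).elim
        · exact h

theorem relation_coding [Finite V] {G : ColouredGraph 6 V} (h : Ax G) (R : V → V → Prop) :
    ∃ X, X ∈ G.colour 4 ∧
      ∀ u, u ∈ G.colour 1 → ∀ v, v ∈ G.colour 2 → (InRel G X u v ↔ R u v) := by
  obtain ⟨X, hX, hX'⟩ := comprehension h
    {d | ∃ u v, u ∈ G.colour 1 ∧ v ∈ G.colour 2 ∧ G.graph.Adj d u ∧ G.graph.Adj d v ∧ R u v}
    (Set.toFinite _)
  refine ⟨X, hX, fun u hu v hv => ⟨?_, fun hR => ?_⟩⟩
  · rintro ⟨d, hd, hdu, hdv, hdX⟩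
    obtain ⟨u', v', hu', hv', hdu', hdv', hR⟩ := (hX' d hd).1 hdX
    rw [h.fstu d hd u hu u' hu' hdu hdu', h.sndu d hd v hv v' hv' hdv hdv']
    exact hR
  · obtain ⟨d, hd, hdu, hdv⟩ := h.pair u hu v hv
    exact ⟨d, hd, hdu, hdv, (hX' d hd).2 ⟨u, v, hu, hv, hdu, hdv, hR⟩⟩

/-- A family of `m` coded sets is separated by at most `m` elements of `D`. -/
theorem separating {G : ColouredGraph 6 V} (h : Ax G) (T : Finset V) :
    (∀ t ∈ T, t ∈ G.colour 4) → ∃ D' : Finset V, (∀ d ∈ D', d ∈ G.colour 3) ∧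
      D'.card ≤ T.card ∧ ∀ t ∈ T, ∀ t' ∈ T,
        (∀ d ∈ D', (G.graph.Adj d t ↔ G.graph.Adj d t')) → t = t' := by
  classical
  induction T using Finset.induction_on with
  | empty =>
    intro _
    exact ⟨∅, by simp, by simp, by simp⟩
  | @insert t0 T ht0 ih =>
    intro hT
    obtain ⟨D', hD', hcard, hsep⟩ := ih fun t ht => hT t (Finset.mem_insert_of_mem ht)
    by_cases hex : ∃ t1 ∈ T, ∀ d ∈ D', (G.graph.Adj d t0 ↔ G.graph.Adj d t1)
    · obtain ⟨t1, ht1, htr⟩ := hex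
      have hne : t0 ≠ t1 := fun e => ht0 (e ▸ ht1)
      have : ∃ d, d ∈ G.colour 3 ∧ ¬ (G.graph.Adj d t0 ↔ G.graph.Adj d t1) := by
        by_contra hcon
        push Not at hcon
        refine hne (h.ext t0 (hT t0 (Finset.mem_insert_self _ _)) t1
          (hT t1 (Finset.mem_insert_of_mem ht1)) fun d hd => ?_)
        have := hcon d hd
        tauto
      obtain ⟨d, hd, hdne⟩ := this
      refine ⟨insert d D', ?_, ?_, ?_⟩
      · intro e he
        rcases Finset.mem_insert.1 he with rfl | he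
        · exact hd
        · exact hD' e he
      · rw [Finset.card_insert_of_notMem ht0]
        exact (Finset.card_insert_le _ _).trans (by omega)
      · have key : ∀ t ∈ T, (∀ e ∈ insert d D', (G.graph.Adj e t0 ↔ G.graph.Adj e t)) → False := by
          intro t ht htt
          have e1 : t = t1 := by
            refine hsep t ht t1 ht1 fun e he => ?_
            rw [← htt e (Finset.mem_insert_of_mem he), htr e he]
          subst e1
          exact hdne (htt d (Finset.mem_insert_self _ _))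
        intro t ht t' ht' htt
        rcases Finset.mem_insert.1 ht with h1 | h1
        · rcases Finset.mem_insert.1 ht' with h2 | h2
          · rw [h1, h2]
          · exact (key t' h2 (h1 ▸ htt)).elim
        · rcases Finset.mem_insert.1 ht' with h2 | h2
          · exact (key t h1 fun e he => h2 ▸ (htt e he).symm).elim
          · exact hsep t h1 t' h2 fun e he => htt e (Finset.mem_insert_of_mem he)
    · push Not at hex
      refine ⟨D', hD', hcard.trans (Finset.card_le_card (Finset.subset_insert _ _)), ?_⟩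
      have key : ∀ t ∈ T, (∀ e ∈ D', (G.graph.Adj e t0 ↔ G.graph.Adj e t)) → False := by
        intro t ht htt
        obtain ⟨d, hd, hdne⟩ := hex t ht
        have := htt d hd
        tauto
      intro t ht t' ht' htt
      rcases Finset.mem_insert.1 ht with h1 | h1
      · rcases Finset.mem_insert.1 ht' with h2 | h2
        · rw [h1, h2]
        · exact (key t' h2 (h1 ▸ htt)).elim
      · rcases Finset.mem_insert.1 ht' with h2 | h2
        · exact (key t h1 fun e he => h2 ▸ (htt e he).symm).elim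
        · exact hsep t h1 t' h2 htt

theorem exists_inj [Finite V] [Nonempty V] (A : Set V) (F : Finset V) (hF : F.card ≤ A.ncard) :
    ∃ g : V → V, (∀ x ∈ F, g x ∈ A) ∧ ∀ x ∈ F, ∀ y ∈ F, g x = g y → x = y := by
  have hfin : (F : Set V).Finite := Set.toFinite _
  have hle : (F : Set V).encard ≤ A.encard := by
    rw [Set.encard_coe_eq_coe_finsetCard, ← (Set.toFinite A).cast_ncard_eq]
    exact_mod_cast hF
  obtain ⟨g, hg, hginj⟩ := hfin.exists_injOn_of_encard_le hle
  exact ⟨g, fun x hx => hg hx, fun x hx y hy hxy => hginj hx hy hxy⟩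

/-- Hash parameters exist for every family `T` of at most `|A|` coded sets. -/
theorem exists_hash [Finite V] {G : ColouredGraph 6 V} (h : Ax G) (T : Finset V)
    (hT : ∀ t ∈ T, t ∈ G.colour 4) (hcard : T.card ≤ (G.colour 1).ncard) :
    ∃ M, M ∈ G.colour 4 ∧ ∃ Y, Y ∈ G.colour 4 ∧ ∃ Z, Z ∈ G.colour 4 ∧
      (∀ t ∈ T, ∃ c, c ∈ G.colour 1 ∧ Hash G M Y Z t c) ∧
      (∀ c, c ∈ G.colour 1 → ∀ t ∈ T, ∀ t' ∈ T, Hash G M Y Z t c → Hash G M Y Z t' c → t = t') := by
  classical
  have : Nonempty V := ⟨h.empt.choose⟩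
  obtain ⟨D', hD', hD'card, hsep⟩ := separating h T hT
  obtain ⟨ι, hιA, hι⟩ := exists_inj (G.colour 1) T hcard
  obtain ⟨κ, hκA, hκ⟩ := exists_inj (G.colour 1) D' (hD'card.trans hcard)
  have hm : ∀ u, ∃ v, u ∈ G.colour 1 → (v ∈ G.colour 2 ∧ G.graph.Adj u v) := by
    intro u
    by_cases hu : u ∈ G.colour 1
    · obtain ⟨v, hv⟩ := h.match1 u hu
      exact ⟨v, fun _ => hv⟩
    · exact ⟨u, fun hu' => (hu hu').elim⟩
  choose m hm using hm
  obtain ⟨M, hM, hM'⟩ := relation_coding h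
    (fun c b' => ∃ t ∈ T, ∃ d ∈ D', c = ι t ∧ b' = m (κ d) ∧ G.graph.Adj d t)
  obtain ⟨Y, hY, hY'⟩ := relation_coding h
    (fun u b' => ∃ d ∈ D', G.graph.Adj d u ∧ b' = m (κ d))
  obtain ⟨Z, hZ, hZ'⟩ := relation_coding h
    (fun b v => ∃ d ∈ D', b = κ d ∧ G.graph.Adj d v)
  -- the values `m (κ d)` determine `d`
  have hmκ : ∀ d ∈ D', ∀ e ∈ D', m (κ d) = m (κ e) → d = e := by
    intro d hd e he hde
    have h1 := hm _ (hκA d hd)
    have h2 := hm _ (hκA e he)
    refine hκ d hd e he (h.match2u (m (κ d)) h1.1 _ (hκA d hd) _ (hκA e he) h1.2 ?_)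
    rw [hde]; exact h2.2
  have inrel : ∀ t d, d ∈ G.colour 3 → ∀ u, u ∈ G.colour 1 → ∀ v, v ∈ G.colour 2 →
      G.graph.Adj d u → G.graph.Adj d v → (InRel G t u v ↔ G.graph.Adj d t) := by
    intro t d hd u hu v hv hdu hdv
    constructor
    · rintro ⟨e, he, heu, hev, het⟩
      rw [h.pairu d hd e he u hu v hv hdu hdv heu hev]
      exact het
    · intro hdt
      exact ⟨d, hd, hdu, hdv, hdt⟩
  refine ⟨M, hM, Y, hY, Z, hZ, ?_, ?_⟩
  · intro t ht
    refine ⟨ι t, hιA t ht, ?_⟩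
    intro u hu v hv b hb b' hb' hYub hZbv hbb
    obtain ⟨d, hd, hdu, hb'd⟩ := (hY' u hu b' hb').1 hYub
    obtain ⟨e, he, hbe, hev⟩ := (hZ' b hb v hv).1 hZbv
    have hde : d = e := by
      refine hκ d hd e he (h.match2u b' hb' _ (hκA d hd) _ (hκA e he) ?_ ?_)
      · rw [hb'd]; exact (hm _ (hκA d hd)).2
      · rw [← hbe]; exact hbb
    subst hde
    rw [inrel t d (hD' d hd) u hu v hv hdu hev, hM' _ (hιA t ht) b' hb']
    constructor
    · intro hdt
      exact ⟨t, ht, d, hd, rfl, hb'd, hdt⟩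
    · rintro ⟨t', ht', d', hd', htt', hbd', hadj⟩
      have e1 : t = t' := hι t ht t' ht' htt'
      have e2 : d = d' := hmκ d hd d' hd' (hb'd ▸ hbd')
      rw [e1, e2]; exact hadj
  · intro c hc t ht t' ht' hht hht'
    refine hsep t ht t' ht' fun d hd => ?_
    obtain ⟨u, hu, hdu⟩ := h.fst d (hD' d hd)
    obtain ⟨v, hv, hdv⟩ := h.snd d (hD' d hd)
    have hmk := hm _ (hκA d hd)
    have hYr : InRel G Y u (m (κ d)) := (hY' u hu _ hmk.1).2 ⟨d, hd, hdu, rfl⟩
    have hZr : InRel G Z (κ d) v := (hZ' _ (hκA d hd) v hv).2 ⟨d, hd, rfl, hdv⟩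
    have h1 := hht u hu v hv _ (hκA d hd) _ hmk.1 hYr hZr hmk.2
    have h2 := hht' u hu v hv _ (hκA d hd) _ hmk.1 hYr hZr hmk.2
    rw [inrel t d (hD' d hd) u hu v hv hdu hdv] at h1
    rw [inrel t' d (hD' d hd) u hu v hv hdu hdv] at h2
    rw [h1, h2]

/-- The translation parameters. -/
theorem exists_translation [Finite V] {f : V → ℕ} (hf : IsNumbering f) (S P : Set V)
    (hSP : ∀ s ∈ S, s ∉ P) (hS : S.Nonempty) (hcard : S.ncard * Pᶜ.ncard < Nat.card V) :
    ∃ x y : V, f x + f y = Nat.card V ∧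
      ∀ s ∈ S, ∃ t ∈ P, (f s + f x = f t ∨ f t + f y = f s) := by
  classical
  by_contra hcon
  push Not at hcon
  obtain ⟨s0, hs0⟩ := hS
  have hmem : ∀ v, 1 ≤ f v ∧ f v ≤ Nat.card V := fun v => hf.mapsTo (Set.mem_univ v)
  have hsurj : ∀ k, 1 ≤ k → k ≤ Nat.card V → ∃ v, f v = k := by
    intro k h1 h2
    obtain ⟨v, -, hv⟩ := hf.surjOn (show k ∈ Set.Icc 1 (Nat.card V) from ⟨h1, h2⟩)
    exact ⟨v, hv⟩
  have hbad : ∀ a, ∃ p : V × V, a < Nat.card V → (p.1 ∈ S ∧ p.2 ∈ Pᶜ ∧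
      (f p.1 + a = f p.2 ∨ f p.1 + a = f p.2 + Nat.card V)) := by
    intro a
    by_cases ha : a < Nat.card V
    · rcases Nat.eq_zero_or_pos a with rfl | hpos
      · exact ⟨(s0, s0), fun _ => ⟨hs0, hSP s0 hs0, Or.inl (by simp)⟩⟩
      · obtain ⟨x, hx⟩ := hsurj a hpos ha.le
        obtain ⟨y, hy⟩ := hsurj (Nat.card V - a) (by omega) (by omega)
        obtain ⟨s, hs, hbad⟩ := hcon x y (by omega)
        by_cases hle : f s + a ≤ Nat.card V
        · obtain ⟨t, ht⟩ := hsurj (f s + a) (by omega) hle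
          refine ⟨(s, t), fun _ => ⟨hs, fun htP => ?_, Or.inl ht.symm⟩⟩
          exact (hbad t htP).1 (by omega)
        · obtain ⟨t, ht⟩ := hsurj (f s + a - Nat.card V) (by omega)
            (by have := (hmem s).2; omega)
          refine ⟨(s, t), fun _ => ⟨hs, fun htP => ?_, Or.inr ?_⟩⟩
          · exact (hbad t htP).2 (by omega)
          · show f s + a = f t + Nat.card V
            omega
    · exact ⟨(s0, s0), fun h => (ha h).elim⟩
  choose g hg using hbad
  have hSfin := Set.toFinite S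
  have hPfin := Set.toFinite Pᶜ
  have hlt : (hSfin.toFinset ×ˢ hPfin.toFinset).card < (Finset.range (Nat.card V)).card := by
    rw [Finset.card_product, Finset.card_range, ← Set.ncard_eq_toFinset_card,
      ← Set.ncard_eq_toFinset_card]
    exact hcard
  obtain ⟨a, ha, b, hb, hab, hgab⟩ := Finset.exists_ne_map_eq_of_card_lt_of_maps_to hlt
    (f := g) (by
      intro a ha
      have := hg a (Finset.mem_range.1 ha)
      simp only [Finset.coe_product, Set.Finite.coe_toFinset, Set.mem_prod]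
      exact ⟨this.1, this.2.1⟩)
  have h1 := (hg a (Finset.mem_range.1 ha)).2.2
  have h2 := (hg b (Finset.mem_range.1 hb)).2.2
  rw [hgab] at h1
  have h3 := Finset.mem_range.1 ha
  have h4 := Finset.mem_range.1 hb
  omega

theorem arith (k m w : ℕ) (h1 : 1 ≤ m) (h2 : m ≤ k) (hw : w ≤ m + k + k + k * k) :
    m * w < 2 ^ (k * k) + w := by
  obtain ⟨m', rfl⟩ : ∃ m', m = m' + 1 := ⟨m - 1, by omega⟩
  have hmain : m' * w < 2 ^ (k * k) := by
    by_cases hk : 4 ≤ k
    · have e1 : m' * w ≤ k * (k + k + k + k * k) := Nat.mul_le_mul (by omega) (by omega)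
      have e2 : k * (k + k + k + k * k) < (k + 1) ^ 4 := by nlinarith [Nat.zero_le k]
      have e3 : (k + 1) ^ 4 ≤ 2 ^ (k * k) := by
        calc (k + 1) ^ 4 ≤ (2 ^ k) ^ 4 := Nat.pow_le_pow_left (Nat.lt_two_pow_self) 4
          _ = 2 ^ (k * 4) := by rw [pow_mul]
          _ ≤ 2 ^ (k * k) := Nat.pow_le_pow_right (by norm_num) (Nat.mul_le_mul_left k hk)
      omega
    · have hk' : k = 1 ∨ k = 2 ∨ k = 3 := by omega
      rcases hk' with rfl | rfl | rfl
      · have : m' = 0 := by omega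
        subst this; simp
      · have : m' ≤ 1 := by omega
        have e1 : m' * w ≤ 1 * w := Nat.mul_le_mul_right w this
        norm_num
        omega
      · have : m' ≤ 2 := by omega
        have e1 : m' * w ≤ 2 * w := Nat.mul_le_mul_right w this
        norm_num
        omega
  calc (m' + 1) * w = m' * w + w := by ring
    _ < 2 ^ (k * k) + w := by omega

theorem card_bound [Finite V] {G : ColouredGraph 6 V} (h : Ax G)
    (h1 : (G.colour 0).Nonempty) (hS : (G.colour 0).ncard ≤ (G.colour 1).ncard) :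
    (G.colour 0).ncard * (G.colour 4)ᶜ.ncard < Nat.card V := by
  classical
  have hBA : (G.colour 2).ncard ≤ (G.colour 1).ncard := by
    choose g hg using h.match2
    refine Set.ncard_le_ncard_of_injOn (fun v => if hv : v ∈ G.colour 2 then g v hv else v) ?_ ?_
    · intro v hv
      simp only [hv, dif_pos]
      exact (hg v hv).1
    · intro v hv w hw hvw
      simp only [hv, hw, dif_pos] at hvw
      refine h.match1u _ (hg v hv).1 v hv w hw (hg v hv).2 ?_
      rw [hvw]; exact (hg w hw).2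
  have hAB : (G.colour 1).ncard ≤ (G.colour 2).ncard := by
    choose g hg using h.match1
    refine Set.ncard_le_ncard_of_injOn (fun v => if hv : v ∈ G.colour 1 then g v hv else v) ?_ ?_
    · intro v hv
      simp only [hv, dif_pos]
      exact (hg v hv).1
    · intro v hv w hw hvw
      simp only [hv, hw, dif_pos] at hvw
      refine h.match2u _ (hg v hv).1 v hv w hw (hg v hv).2 ?_
      rw [hvw]; exact (hg w hw).2
  have hBA' : (G.colour 2).ncard = (G.colour 1).ncard := le_antisymm hBA hAB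
  set k := (G.colour 1).ncard with hk
  -- `|D| = k * k`
  have hD1 : (G.colour 3).ncard ≤ k * k := by
    choose g1 hg1 using h.fst
    choose g2 hg2 using h.snd
    have : Nat.card (G.colour 3) ≤ Nat.card (G.colour 1 × G.colour 2) := by
      refine Nat.card_le_card_of_injective
        (fun d => (⟨g1 d d.2, (hg1 d d.2).1⟩, ⟨g2 d d.2, (hg2 d d.2).1⟩)) ?_
      intro d e hde
      simp only [Prod.mk.injEq, Subtype.mk.injEq] at hde
      refine Subtype.ext (h.pairu d d.2 e e.2 _ (hg1 d d.2).1 _ (hg2 d d.2).1 (hg1 d d.2).2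
        (hg2 d d.2).2 ?_ ?_)
      · rw [hde.1]; exact (hg1 e e.2).2
      · rw [hde.2]; exact (hg2 e e.2).2
    rw [Nat.card_prod, Nat.card_coe_set_eq, Nat.card_coe_set_eq, Nat.card_coe_set_eq, hBA'] at this
    exact this
  have hD2 : k * k ≤ (G.colour 3).ncard := by
    choose g hg using h.pair
    have : Nat.card (G.colour 1 × G.colour 2) ≤ Nat.card (G.colour 3) := by
      refine Nat.card_le_card_of_injective
        (fun p => ⟨g p.1 p.1.2 p.2 p.2.2, (hg p.1 p.1.2 p.2 p.2.2).1⟩) ?_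
      rintro ⟨u, v⟩ ⟨u', v'⟩ hde
      simp only [Subtype.mk.injEq] at hde
      have a1 := hg u u.2 v v.2
      have a2 := hg u' u'.2 v' v'.2
      rw [← hde] at a2
      have b1 := h.fstu _ a1.1 u u.2 u' u'.2 a1.2.1 a2.2.1
      have b2 := h.sndu _ a1.1 v v.2 v' v'.2 a1.2.2 a2.2.2
      exact Prod.ext (Subtype.ext b1) (Subtype.ext b2)
    rw [Nat.card_prod, Nat.card_coe_set_eq, Nat.card_coe_set_eq, Nat.card_coe_set_eq, hBA'] at this
    exact this
  -- `|P| ≥ 2 ^ |D|`
  have hP : 2 ^ (k * k) ≤ (G.colour 4).ncard := by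
    have hc : ∀ Q : G.colour 3 → Bool, ∃ X, X ∈ G.colour 4 ∧ ∀ d : G.colour 3,
        (G.graph.Adj d X ↔ Q d = true) := by
      intro Q
      obtain ⟨X, hX, hX'⟩ := comprehension h {d | ∃ hd : d ∈ G.colour 3, Q ⟨d, hd⟩ = true}
        (Set.toFinite _)
      refine ⟨X, hX, fun d => ?_⟩
      rw [hX' d d.2]
      constructor
      · rintro ⟨_, hd⟩; exact hd
      · intro hd; exact ⟨d.2, hd⟩
    choose g hg using hc
    have : Nat.card (G.colour 3 → Bool) ≤ Nat.card (G.colour 4) := by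
      refine Nat.card_le_card_of_injective (fun Q => ⟨g Q, (hg Q).1⟩) ?_
      intro Q Q' hQ
      simp only [Subtype.mk.injEq] at hQ
      funext d
      have a1 := (hg Q).2 d
      have a2 := (hg Q').2 d
      rw [hQ] at a1
      rw [Bool.eq_iff_iff, ← a1, ← a2]
    rw [Nat.card_fun, Nat.card_coe_set_eq, Nat.card_coe_set_eq] at this
    have e2 : Nat.card Bool = 2 := by simp
    rw [e2] at this
    exact (Nat.pow_le_pow_right (by norm_num) hD2).trans this
  have hW : (G.colour 4)ᶜ.ncard ≤ (G.colour 0).ncard + k + k + k * k := by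
    have hsub : (G.colour 4)ᶜ ⊆ ((G.colour 0 ∪ G.colour 1) ∪ G.colour 2) ∪ G.colour 3 := by
      intro x hx
      rcases h.cover x with h0 | h0 | h0 | h0 | h0
      · exact Or.inl (Or.inl (Or.inl h0))
      · exact Or.inl (Or.inl (Or.inr h0))
      · exact Or.inl (Or.inr h0)
      · exact Or.inr h0
      · exact (hx h0).elim
    have e1 := Set.ncard_le_ncard hsub (Set.toFinite _)
    have e2 := Set.ncard_union_le ((G.colour 0 ∪ G.colour 1) ∪ G.colour 2) (G.colour 3)
    have e3 := Set.ncard_union_le (G.colour 0 ∪ G.colour 1) (G.colour 2)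
    have e4 := Set.ncard_union_le (G.colour 0) (G.colour 1)
    omega
  have hV : Nat.card V = (G.colour 4).ncard + (G.colour 4)ᶜ.ncard :=
    (Set.ncard_add_ncard_compl _).symm
  have hpos : 1 ≤ (G.colour 0).ncard := (Set.ncard_pos (Set.toFinite _)).2 h1
  have := arith k _ _ hpos hS hW
  rw [hV]
  omega

/-- From `a` one can reach a red vertex inside `S`. -/
def Reach (G : ColouredGraph 6 V) (a : V) : Prop :=
  ∀ U : V → Prop, U a →
    (∀ s, s ∈ G.colour 0 → ∀ s', s' ∈ G.colour 0 → G.graph.Adj s s' → U s → U s') →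
    ∃ s, s ∈ G.colour 0 ∧ s ∈ G.colour 5 ∧ U s

/-- The numbering-free meaning of the formula. -/
def Sem (G : ColouredGraph 6 V) (a : V) : Prop :=
  Ax G ∧ a ∈ G.colour 0 ∧ (G.colour 0).ncard ≤ (G.colour 1).ncard ∧ Reach G a

theorem good_card [Finite V] {G : ColouredGraph 6 V} {f : V → ℕ} {x y M Y Z : V}
    (h : Good G f x y M Y Z) : (G.colour 0).ncard ≤ (G.colour 1).ncard := by
  classical
  choose g hg using h.1
  refine Set.ncard_le_ncard_of_injOn (fun v => if hv : v ∈ G.colour 0 then g v hv else v) ?_ ?_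
  · intro v hv
    simp only [hv, dif_pos]
    exact (hg v hv).1
  · intro v hv w hw hvw
    simp only [hv, hw, dif_pos] at hvw
    refine h.2 _ (hg v hv).1 v hv w hw (hg v hv).2 ?_
    rw [hvw]; exact (hg w hw).2

theorem exists_good [Finite V] {G : ColouredGraph 6 V} {f : V → ℕ} (hf : IsNumbering f)
    (h : Ax G) (h0 : (G.colour 0).Nonempty) (hc : (G.colour 0).ncard ≤ (G.colour 1).ncard) :
    ∃ x y M, M ∈ G.colour 4 ∧ ∃ Y, Y ∈ G.colour 4 ∧ ∃ Z, Z ∈ G.colour 4 ∧
      Good G f x y M Y Z := by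
  classical
  have hmem : ∀ v, 1 ≤ f v ∧ f v ≤ Nat.card V := fun v => hf.mapsTo (Set.mem_univ v)
  have hinj : ∀ v w, f v = f w → v = w := fun v w hvw =>
    hf.injOn (Set.mem_univ v) (Set.mem_univ w) hvw
  obtain ⟨x, y, hxy, htr⟩ := exists_translation hf (G.colour 0) (G.colour 4) h.disj h0
    (card_bound h h0 hc)
  have htr' : ∀ s, ∃ t, s ∈ G.colour 0 → (t ∈ G.colour 4 ∧
      (f s + f x = f t ∨ f t + f y = f s)) := by
    intro s
    by_cases hs : s ∈ G.colour 0
    · obtain ⟨t, ht⟩ := htr s hs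
      exact ⟨t, fun _ => ht⟩
    · exact ⟨s, fun hs' => (hs hs').elim⟩
  choose τ hτ using htr'
  have det1 : ∀ s t t', (f s + f x = f t ∨ f t + f y = f s) →
      (f s + f x = f t' ∨ f t' + f y = f s) → t = t' := by
    intro s t t' h1 h2
    have a1 := hmem t
    have a2 := hmem t'
    exact hinj _ _ (by omega)
  have det2 : ∀ s s' t, (f s + f x = f t ∨ f t + f y = f s) →
      (f s' + f x = f t ∨ f t + f y = f s') → s = s' := by
    intro s s' t h1 h2
    have a1 := hmem s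
    have a2 := hmem s'
    exact hinj _ _ (by omega)
  have hfin := Set.toFinite (G.colour 0)
  let T : Finset V := hfin.toFinset.image τ
  have hT : ∀ t ∈ T, t ∈ G.colour 4 := by
    intro t ht
    obtain ⟨s, hs, rfl⟩ := Finset.mem_image.1 ht
    exact (hτ s (hfin.mem_toFinset.1 hs)).1
  have hTcard : T.card ≤ (G.colour 1).ncard := by
    refine le_trans Finset.card_image_le ?_
    rw [← Set.ncard_eq_toFinset_card]
    exact hc
  have hτT : ∀ s, s ∈ G.colour 0 → τ s ∈ T := by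
    intro s hs
    exact Finset.mem_image.2 ⟨s, hfin.mem_toFinset.2 hs, rfl⟩
  obtain ⟨M, hM, Y, hY, Z, hZ, htot, hinj'⟩ := exists_hash h T hT hTcard
  refine ⟨x, y, M, hM, Y, hY, Z, hZ, ?_, ?_⟩
  · intro s hs
    obtain ⟨c, hc, hhash⟩ := htot _ (hτT s hs)
    exact ⟨c, hc, τ s, (hτ s hs).1, (hτ s hs).2, hhash⟩
  · rintro c hc s hs s' hs' ⟨t, -, hst, hht⟩ ⟨t', -, hst', hht'⟩
    have e1 : t = τ s := det1 s _ _ hst (hτ s hs).2
    have e2 : t' = τ s' := det1 s' _ _ hst' (hτ s' hs').2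
    have e3 : t = t' := by
      refine hinj' c hc t ?_ t' ?_ hht hht'
      · rw [e1]; exact hτT s hs
      · rw [e2]; exact hτT s' hs'
    rw [← e3] at hst'
    exact det2 s s' t hst hst'

theorem main_iff [Finite V] {G : ColouredGraph 6 V} {f : V → ℕ} (hf : IsNumbering f) (a : V) :
    Main G f a ↔ Sem G a := by
  constructor
  · rintro ⟨h, ha, x, y, M, hM, Y, hY, Z, hZ, hgood, hmain⟩
    refine ⟨h, ha, good_card hgood, ?_⟩
    intro U hUa hU
    obtain ⟨Q, hQ, hQ'⟩ := relation_coding h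
      (fun c _ => ∃ s, s ∈ G.colour 0 ∧ U s ∧ Link G f x y M Y Z s c)
    have key : ∀ s, s ∈ G.colour 0 → (InU G f x y M Y Z Q s ↔ U s) := by
      intro s hs
      constructor
      · rintro ⟨c, hc, hlink, v, hv, hrel⟩
        obtain ⟨s', hs', hUs', hlink'⟩ := (hQ' c hc v hv).1 hrel
        rw [hgood.2 c hc s hs s' hs' hlink hlink']
        exact hUs'
      · intro hUs
        obtain ⟨c, hc, hlink⟩ := hgood.1 s hs
        obtain ⟨v, hv, -⟩ := h.match1 c hc
        exact ⟨c, hc, hlink, v, hv, (hQ' c hc v hv).2 ⟨s, hs, hUs, hlink⟩⟩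
    obtain ⟨s, hs, hs5, hsU⟩ := hmain Q hQ ((key a ha).2 hUa) (by
      intro s hs s' hs' hadj hin
      exact (key s' hs').2 (hU s hs s' hs' hadj ((key s hs).1 hin)))
    exact ⟨s, hs, hs5, (key s hs).1 hsU⟩
  · rintro ⟨h, ha, hc, hreach⟩
    obtain ⟨x, y, M, hM, Y, hY, Z, hZ, hgood⟩ := exists_good hf h ⟨a, ha⟩ hc
    refine ⟨h, ha, x, y, M, hM, Y, hY, Z, hZ, hgood, ?_⟩
    intro Q hQ hQa hQcl
    exact hreach (fun s => InU G f x y M Y Z Q s) hQa hQcl

end Semantics

/-! ### The graphs showing non-locality -/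

section Example

/-- Vertices: two paths with `r + 2` vertices each, and the coding part. -/
inductive Vt (r : ℕ) : Type
  | s (p : Bool × Fin (r + 2))
  | a (p : Bool × Fin (r + 2))
  | b (p : Bool × Fin (r + 2))
  | d (p q : Bool × Fin (r + 2))
  | P (X : (Bool × Fin (r + 2)) → (Bool × Fin (r + 2)) → Bool)

variable {r : ℕ}

instance : Finite (Vt r) := by
  let K := Bool × Fin (r + 2)
  let g : Vt r → (K ⊕ K) ⊕ (K ⊕ ((K × K) ⊕ (K → K → Bool))) := fun x =>
    match x with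
    | .s p => Sum.inl (Sum.inl p)
    | .a p => Sum.inl (Sum.inr p)
    | .b p => Sum.inr (Sum.inl p)
    | .d p q => Sum.inr (Sum.inr (Sum.inl (p, q)))
    | .P X => Sum.inr (Sum.inr (Sum.inr X))
  have hg : Function.Injective g := by
    intro x y hxy
    cases x <;> cases y <;> simp_all [g]
  exact Finite.of_injective g hg

/-- Directed version of the edges. -/
def Er : Vt r → Vt r → Prop
  | .s p, .s q => p.1 = q.1 ∧ p.2.val + 1 = q.2.val
  | .a p, .b q => p = q
  | .d p _, .a p' => p = p'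
  | .d _ q, .b q' => q = q'
  | .d p q, .P X => X p q = true
  | _, _ => False

/-- The coloured graph. -/
def ex (r : ℕ) : ColouredGraph 6 (Vt r) where
  graph :=
    { Adj := fun x y => Er x y ∨ Er y x
      symm := ⟨fun x y h => h.symm⟩
      loopless := ⟨fun x h => by
        cases x <;> simp [Er] at h⟩ }
  colour := ![{x | ∃ p, x = .s p}, {x | ∃ p, x = .a p}, {x | ∃ p, x = .b p},
    {x | ∃ p q, x = .d p q}, {x | ∃ X, x = .P X}, {x | x = .s (true, Fin.last (r + 1))}]

theorem ex_adj {x y : Vt r} : (ex r).graph.Adj x y ↔ (Er x y ∨ Er y x) := Iff.rfl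
theorem c0 {x : Vt r} : x ∈ (ex r).colour 0 ↔ ∃ p, x = .s p := Iff.rfl
theorem c1 {x : Vt r} : x ∈ (ex r).colour 1 ↔ ∃ p, x = .a p := Iff.rfl
theorem c2 {x : Vt r} : x ∈ (ex r).colour 2 ↔ ∃ p, x = .b p := Iff.rfl
theorem c3 {x : Vt r} : x ∈ (ex r).colour 3 ↔ ∃ p q, x = .d p q := Iff.rfl
theorem c4 {x : Vt r} : x ∈ (ex r).colour 4 ↔ ∃ X, x = .P X := Iff.rfl
theorem c5 {x : Vt r} : x ∈ (ex r).colour 5 ↔ x = .s (true, Fin.last (r + 1)) := Iff.rfl

theorem ex_ax : Ax (ex r) where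
  cover := by
    intro x
    simp only [c0, c1, c2, c3, c4]
    cases x <;> simp
  disj := by
    intro x
    simp only [c0, c4]
    rintro ⟨p, rfl⟩ ⟨X, hX⟩
    cases hX
  pair := by
    simp only [c1, c2, c3, ex_adj]
    rintro _ ⟨p, rfl⟩ _ ⟨q, rfl⟩
    exact ⟨.d p q, ⟨p, q, rfl⟩, Or.inl rfl, Or.inl rfl⟩
  fst := by
    simp only [c1, c3, ex_adj]
    rintro _ ⟨p, q, rfl⟩
    exact ⟨.a p, ⟨p, rfl⟩, Or.inl rfl⟩
  snd := by
    simp only [c2, c3, ex_adj]
    rintro _ ⟨p, q, rfl⟩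
    exact ⟨.b q, ⟨q, rfl⟩, Or.inl rfl⟩
  fstu := by
    simp only [c1, c3, ex_adj]
    rintro _ ⟨p, q, rfl⟩ _ ⟨u, rfl⟩ _ ⟨v, rfl⟩ h1 h2
    simp only [Er, or_false] at h1 h2
    rw [← h1, ← h2]
  sndu := by
    simp only [c2, c3, ex_adj]
    rintro _ ⟨p, q, rfl⟩ _ ⟨u, rfl⟩ _ ⟨v, rfl⟩ h1 h2
    simp only [Er, or_false] at h1 h2
    rw [← h1, ← h2]
  pairu := by
    simp only [c1, c2, c3, ex_adj]
    rintro _ ⟨p, q, rfl⟩ _ ⟨p', q', rfl⟩ _ ⟨u, rfl⟩ _ ⟨v, rfl⟩ h1 h2 h3 h4
    simp only [Er, or_false] at h1 h2 h3 h4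
    rw [h1, h2, h3, h4]
  empt := by
    simp only [c3, c4, ex_adj]
    refine ⟨.P fun _ _ => false, ⟨_, rfl⟩, ?_⟩
    rintro _ ⟨p, q, rfl⟩ h
    simp [Er] at h
  succ := by
    classical
    simp only [c3, c4, ex_adj]
    rintro _ ⟨X, rfl⟩ _ ⟨p, q, rfl⟩
    refine ⟨.P fun u v => X u v || decide (u = p ∧ v = q), ⟨_, rfl⟩, ?_⟩
    rintro _ ⟨u, v, rfl⟩
    simp [Er]
  ext := by
    simp only [c3, c4, ex_adj]
    rintro _ ⟨X, rfl⟩ _ ⟨Y, rfl⟩ h
    congr 1
    funext u v
    have := h _ ⟨u, v, rfl⟩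
    simp only [Er, or_false] at this
    exact Bool.eq_iff_iff.2 this
  match1 := by
    simp only [c1, c2, ex_adj]
    rintro _ ⟨p, rfl⟩
    exact ⟨.b p, ⟨p, rfl⟩, Or.inl rfl⟩
  match2 := by
    simp only [c1, c2, ex_adj]
    rintro _ ⟨p, rfl⟩
    exact ⟨.a p, ⟨p, rfl⟩, Or.inl rfl⟩
  match1u := by
    simp only [c1, c2, ex_adj]
    rintro _ ⟨p, rfl⟩ _ ⟨q, rfl⟩ _ ⟨q', rfl⟩ h1 h2
    simp only [Er, or_false] at h1 h2
    rw [← h1, ← h2]
  match2u := by
    simp only [c1, c2, ex_adj]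
    rintro _ ⟨p, rfl⟩ _ ⟨q, rfl⟩ _ ⟨q', rfl⟩ h1 h2
    simp only [Er, or_false] at h1 h2
    rw [h1, h2]

theorem ex_card : ((ex r).colour 0).ncard ≤ ((ex r).colour 1).ncard := by
  refine Set.ncard_le_ncard_of_injOn
    (fun x => match x with
      | .s p => .a p
      | x => x) ?_ ?_ (Set.toFinite _)
  · intro x
    simp only [c0, c1]
    rintro ⟨p, rfl⟩
    exact ⟨p, rfl⟩
  · intro x hx y hy hxy
    obtain ⟨p, rfl⟩ := c0.1 hx
    obtain ⟨q, rfl⟩ := c0.1 hy
    simp only [Vt.a.injEq] at hxy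
    rw [hxy]

theorem ex_reach : Reach (ex r) (.s (true, 0)) := by
  intro U h0 hU
  have key : ∀ n (hn : n < r + 2), U (.s (true, ⟨n, hn⟩)) := by
    intro n
    induction n with
    | zero => intro _; exact h0
    | succ n ih =>
      intro hn
      exact hU (.s (true, ⟨n, by omega⟩)) (c0.2 ⟨_, rfl⟩) (.s (true, ⟨n + 1, hn⟩))
        (c0.2 ⟨_, rfl⟩) (ex_adj.2 (Or.inl ⟨rfl, rfl⟩)) (ih (by omega))
  exact ⟨.s (true, Fin.last (r + 1)), c0.2 ⟨_, rfl⟩, c5.2 rfl, key (r + 1) (by omega)⟩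

theorem ex_not_reach : ¬ Reach (ex r) (.s (false, 0)) := by
  intro h
  obtain ⟨s, hs, hs5, i, hi⟩ := h (fun x => ∃ i, x = .s (false, i)) ⟨0, rfl⟩ (by
    rintro _ _ y hy hadj ⟨i, rfl⟩
    obtain ⟨⟨β, j⟩, rfl⟩ := c0.1 hy
    refine ⟨j, ?_⟩
    rcases ex_adj.1 hadj with h | h
    · have := h.1
      simp only at this
      rw [← this]
    · have := h.1
      simp only at this
      rw [this])
  rw [c5.1 hs5] at hi
  simp at hi

theorem ex_walk {x y : Vt r} (w : (ex r).graph.Walk x y) :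
    ∀ (β : Bool) (i : Fin (r + 2)), x = .s (β, i) →
      ∃ j : Fin (r + 2), y = .s (β, j) ∧ j.val ≤ i.val + w.length := by
  induction w with
  | nil =>
    intro β i hx
    exact ⟨i, hx, by simp⟩
  | @cons u v z hadj w ih =>
    intro β i hx
    subst hx
    have hv : ∃ j : Fin (r + 2), v = .s (β, j) ∧ j.val ≤ i.val + 1 := by
      rcases ex_adj.1 hadj with h | h
      · cases v with
        | s p =>
          obtain ⟨β', j⟩ := p
          obtain ⟨h1, h2⟩ := h
          simp only at h1 h2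
          exact ⟨j, by rw [h1], by omega⟩
        | a p => exact h.elim
        | b p => exact h.elim
        | d p q => exact h.elim
        | P X => exact h.elim
      · cases v with
        | s p =>
          obtain ⟨β', j⟩ := p
          obtain ⟨h1, h2⟩ := h
          simp only at h1 h2
          exact ⟨j, by rw [h1], by omega⟩
        | a p => exact h.elim
        | b p => exact h.elim
        | d p q => exact h.elim
        | P X => exact h.elim
    obtain ⟨j, hj, hji⟩ := hv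
    obtain ⟨l, hl, hlj⟩ := ih β j hj
    refine ⟨l, hl, ?_⟩
    rw [SimpleGraph.Walk.length_cons]
    omega

theorem ex_walk' (β : Bool) : ∀ n (hn : n < r + 2),
    ∃ w : (ex r).graph.Walk (.s (β, 0)) (.s (β, ⟨n, hn⟩)), w.length ≤ n := by
  intro n
  induction n with
  | zero =>
    intro _
    exact ⟨SimpleGraph.Walk.nil, le_refl _⟩
  | succ n ih =>
    intro hn
    obtain ⟨w, hw⟩ := ih (by omega)
    have hadj : (ex r).graph.Adj (.s (β, ⟨n, by omega⟩)) (.s (β, ⟨n + 1, hn⟩)) :=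
      ex_adj.2 (Or.inl ⟨rfl, rfl⟩)
    refine ⟨w.concat hadj, ?_⟩
    rw [SimpleGraph.Walk.length_concat]
    omega

theorem ex_ball (β : Bool) (x : Vt r) :
    x ∈ ball (ex r) r (fun _ : Fin 1 => .s (β, 0)) ↔
      ∃ j : Fin (r + 2), j.val ≤ r ∧ x = .s (β, j) := by
  constructor
  · rintro ⟨_, w, hw⟩
    obtain ⟨j, hj, hjw⟩ := ex_walk w β 0 rfl
    exact ⟨j, by simp at hjw; omega, hj⟩
  · rintro ⟨j, hj, rfl⟩
    obtain ⟨w, hw⟩ := ex_walk' (r := r) β j.val j.isLt
    exact ⟨0, w, by omega⟩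

/-- Exchange the two paths. -/
def flip : Vt r → Vt r
  | .s p => .s (!p.1, p.2)
  | x => x

theorem ex_iso : NbhdIso (ex r) r (fun _ : Fin 1 => (.s (true, 0) : Vt r))
    (fun _ => .s (false, 0)) := by
  have m1 : ∀ x : ball (ex r) r (fun _ : Fin 1 => (.s (true, 0) : Vt r)),
      flip (x : Vt r) ∈ ball (ex r) r (fun _ : Fin 1 => (.s (false, 0) : Vt r)) := by
    rintro ⟨x, hx⟩
    obtain ⟨j, hj, rfl⟩ := (ex_ball true x).1 hx
    exact (ex_ball false _).2 ⟨j, hj, rfl⟩
  have m2 : ∀ x : ball (ex r) r (fun _ : Fin 1 => (.s (false, 0) : Vt r)),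
      flip (x : Vt r) ∈ ball (ex r) r (fun _ : Fin 1 => (.s (true, 0) : Vt r)) := by
    rintro ⟨x, hx⟩
    obtain ⟨j, hj, rfl⟩ := (ex_ball false x).1 hx
    exact (ex_ball true _).2 ⟨j, hj, rfl⟩
  have ff : ∀ x : Vt r, flip (flip x) = x := by
    intro x
    cases x <;> simp [flip]
  refine ⟨⟨fun x => ⟨flip x, m1 x⟩, fun x => ⟨flip x, m2 x⟩, fun x => Subtype.ext (ff x),
    fun x => Subtype.ext (ff x)⟩, ?_, ?_, ?_⟩
  · rintro ⟨x, hx⟩ ⟨y, hy⟩
    obtain ⟨i, hi, rfl⟩ := (ex_ball true x).1 hx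
    obtain ⟨j, hj, rfl⟩ := (ex_ball true y).1 hy
    simp [ex_adj, flip, Er]
  · rintro i ⟨x, hx⟩
    obtain ⟨j, hj, rfl⟩ := (ex_ball true x).1 hx
    have hj' : j ≠ Fin.last (r + 1) := by
      rintro rfl
      simp at hj
    fin_cases i
    · simp only [Fin.zero_eta, c0, flip, Equiv.coe_fn_mk]
      exact ⟨fun _ => ⟨_, rfl⟩, fun _ => ⟨_, rfl⟩⟩
    · simp only [Fin.mk_one, c1, flip, Equiv.coe_fn_mk]
      simp
    · simp only [Fin.reduceFinMk, c2, flip, Equiv.coe_fn_mk]
      simp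
    · simp only [Fin.reduceFinMk, c3, flip, Equiv.coe_fn_mk]
      simp
    · simp only [Fin.reduceFinMk, c4, flip, Equiv.coe_fn_mk]
      simp
    · simp only [Fin.reduceFinMk, c5, flip, Equiv.coe_fn_mk]
      simp [hj']
  · intro i h
    rfl

end Example

theorem exists_numbering (V : Type) [Finite V] : ∃ f : V → ℕ, IsNumbering f := by
  let e := Finite.equivFin V
  refine ⟨fun v => (e v).val + 1, ?_, ?_, ?_⟩
  · intro v _
    have := (e v).isLt
    exact Set.mem_Icc.2 ⟨Nat.le_add_left _ _, this⟩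
  · intro v _ w _ h
    have : (e v).val = (e w).val := by simpa using h
    exact e.injective (Fin.ext this)
  · rintro k ⟨h1, h2⟩
    refine ⟨e.symm ⟨k - 1, by omega⟩, Set.mem_univ _, ?_⟩
    simp only [Equiv.apply_symm_apply]
    omega

/-- The unary formula. -/
def phi : (vocab 6).Formula (Fin 1) :=
  Language.Formula.relabel (fun _ : ℕ => (0 : Fin 1)) mainF

theorem sat_phi {V : Type} [Finite V] {G : ColouredGraph 6 V} {f : V → ℕ} (hf : IsNumbering f)
    (a : Fin 1 → V) : Sat G f phi a ↔ Sem G (a 0) := by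
  rw [← main_iff hf]
  have : Sat G f phi a ↔ Sat G f mainF (a ∘ fun _ : ℕ => (0 : Fin 1)) := by
    unfold Sat phi
    let _ := expansion G f
    exact Language.Formula.realize_relabel
  rw [this, sat_main]
  rfl

/-- Some (unary) query definable in addition-invariant first-order logic is not Gaifman-local. -/
theorem result : ∃ φ : (vocab 6).Formula (Fin 1), PlusInvariant φ ∧ ¬ GaifmanLocal φ := by
  refine ⟨phi, ?_, ?_⟩
  · intro V _ G f₁ f₂ h₁ h₂ a
    rw [sat_phi h₁, sat_phi h₂]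
  · rintro ⟨r, hr⟩
    have h := (hr (Vt r) (ex r) _ _ ex_iso).1 (by
      obtain ⟨f, hf⟩ := exists_numbering (Vt r)
      exact ⟨f, hf, (sat_phi hf _).2 ⟨ex_ax, c0.2 ⟨_, rfl⟩, ex_card, ex_reach⟩⟩)
    obtain ⟨f, hf, hsat⟩ := h
    exact ex_not_reach ((sat_phi hf _).1 hsat).2.2.2

end Pool.Agent.Results.MP_abe753_lc.PlusNotLocal
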